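import Pool.Agent.W710.DP.Stm2

set_option autoImplicit false

namespace Pool.Agent.W991.DP

open Pool.Agent.W710.DP Set Metric

/-- the formula of a small step -/
noncomputable def phf (a : Equiv.Perm ℂ) (t t' : ℝ) (z : ℂ) : ℂ :=
  t'⁻¹ • a ((t' * t⁻¹) • a.symm (t • z))

/-- its derivative -/
noncomputable def phd (a : Equiv.Perm ℂ) (t t' : ℝ) (z : ℂ) : ℂ →L[ℝ] ℂ :=
  (fderiv ℝ a ((t' * t⁻¹) • a.symm (t • z))).comp (fderiv ℝ a.symm (t • z))

theorem phf_inv (a : Equiv.Perm ℂ) (t t' : ℝ) (ht : t ≠ 0) (ht' : t' ≠ 0) (z : ℂ) :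
    phf a t' t (phf a t t' z) = z := by
  unfold phf
  rw [smul_smul t' t'⁻¹, mul_inv_cancel₀ ht', one_smul, Equiv.symm_apply_apply, smul_smul]
  have : t * t'⁻¹ * (t' * t⁻¹) = 1 := by field_simp
  rw [this, one_smul, Equiv.apply_symm_apply, smul_smul, inv_mul_cancel₀ ht, one_smul]

/-- a small step -/
noncomputable def ph (a : Equiv.Perm ℂ) (t t' : ℝ) (ht : t ≠ 0) (ht' : t' ≠ 0) :
    Equiv.Perm ℂ where
  toFun := phf a t t'
  invFun := phf a t' t
  left_inv := phf_inv a t t' ht ht'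
  right_inv := phf_inv a t' t ht' ht

theorem phf_contDiff (a : Equiv.Perm ℂ) (ha : AP a) (t t' : ℝ) :
    ContDiff ℝ ((⊤ : ℕ∞) : WithTop ℕ∞) (phf a t t') := by
  unfold phf
  exact (ha.1.comp ((ha.2.1.comp (contDiff_id.const_smul t)).const_smul (t' * t⁻¹))).const_smul
    t'⁻¹

theorem phf_hasFDerivAt (a : Equiv.Perm ℂ) (ha : AP a) (t t' : ℝ) (ht : t ≠ 0) (ht' : t' ≠ 0)
    (z : ℂ) : HasFDerivAt (phf a t t') (phd a t t' z) z := by
  have h1 : HasFDerivAt (fun z : ℂ => t • z) (t • ContinuousLinearMap.id ℝ ℂ) z :=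
    (hasFDerivAt_id z).const_smul t
  have h2 : HasFDerivAt a.symm (fderiv ℝ a.symm (t • z)) (t • z) :=
    (ha.2.1.differentiable (by simp) _).hasFDerivAt
  have h3 : HasFDerivAt (fun z : ℂ => a.symm (t • z))
      ((fderiv ℝ a.symm (t • z)).comp (t • ContinuousLinearMap.id ℝ ℂ)) z := h2.comp z h1
  have h4 := h3.const_smul (t' * t⁻¹)
  have h5 : HasFDerivAt a (fderiv ℝ a ((t' * t⁻¹) • a.symm (t • z)))
      ((t' * t⁻¹) • a.symm (t • z)) := (ha.1.differentiable (by simp) _).hasFDerivAt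
  have h6 : HasFDerivAt (fun z : ℂ => a ((t' * t⁻¹) • a.symm (t • z)))
      ((fderiv ℝ a ((t' * t⁻¹) • a.symm (t • z))).comp ((t' * t⁻¹) •
        ((fderiv ℝ a.symm (t • z)).comp (t • ContinuousLinearMap.id ℝ ℂ)))) z :=
    HasFDerivAt.comp z h5 h4
  have h7 := h6.const_smul t'⁻¹
  have h8 : t'⁻¹ • ((fderiv ℝ a ((t' * t⁻¹) • a.symm (t • z))).comp ((t' * t⁻¹) •
        ((fderiv ℝ a.symm (t • z)).comp (t • ContinuousLinearMap.id ℝ ℂ)))) = phd a t t' z := by
    unfold phd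
    rw [ContinuousLinearMap.comp_smul, ContinuousLinearMap.comp_smul,
      ContinuousLinearMap.comp_id, ContinuousLinearMap.comp_smul, smul_smul, smul_smul]
    have : t'⁻¹ * t' * t⁻¹ * t = 1 := by field_simp
    rw [← mul_assoc, this, one_smul]
  rw [h8] at h7
  exact h7

theorem symm_fderiv (a : Equiv.Perm ℂ) (ha : AP a) (y : ℂ) :
    (fderiv ℝ a (a.symm y)).comp (fderiv ℝ a.symm y) = ContinuousLinearMap.id ℝ ℂ := by
  have h2 : HasFDerivAt a.symm (fderiv ℝ a.symm y) y :=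
    (ha.2.1.differentiable (by simp) _).hasFDerivAt
  have h5 : HasFDerivAt a (fderiv ℝ a (a.symm y)) (a.symm y) :=
    (ha.1.differentiable (by simp) _).hasFDerivAt
  have h6 : HasFDerivAt (fun z : ℂ => a (a.symm z))
      ((fderiv ℝ a (a.symm y)).comp (fderiv ℝ a.symm y)) y := h5.comp y h2
  have h7 : (fun z : ℂ => a (a.symm z)) = fun z => z := by
    funext z; exact a.apply_symm_apply z
  rw [h7] at h6
  exact h6.unique (hasFDerivAt_id y)

theorem det_symm (a : Equiv.Perm ℂ) (ha : AP a) (y : ℂ) :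
    LinearMap.det ((fderiv ℝ a.symm y : ℂ →L[ℝ] ℂ) : ℂ →ₗ[ℝ] ℂ) = 1 := by
  have h1 := congrArg (fun f : ℂ →L[ℝ] ℂ => LinearMap.det (f : ℂ →ₗ[ℝ] ℂ)) (symm_fderiv a ha y)
  have h2 : (((fderiv ℝ a (a.symm y)).comp (fderiv ℝ a.symm y) : ℂ →L[ℝ] ℂ) : ℂ →ₗ[ℝ] ℂ) =
      ((fderiv ℝ a (a.symm y) : ℂ →L[ℝ] ℂ) : ℂ →ₗ[ℝ] ℂ) ∘ₗ
        ((fderiv ℝ a.symm y : ℂ →L[ℝ] ℂ) : ℂ →ₗ[ℝ] ℂ) := rfl
  simp only [h2, LinearMap.det_comp, ha.2.2, one_mul] at h1
  rw [h1]
  exact LinearMap.det_id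

theorem ph_AP (a : Equiv.Perm ℂ) (ha : AP a) (t t' : ℝ) (ht : t ≠ 0) (ht' : t' ≠ 0) :
    AP (ph a t t' ht ht') := by
  refine ⟨phf_contDiff a ha t t', phf_contDiff a ha t' t, fun z => ?_⟩
  have h1 : fderiv ℝ (ph a t t' ht ht') z = phd a t t' z :=
    (phf_hasFDerivAt a ha t t' ht ht' z).fderiv
  rw [h1]
  have h2 : ((phd a t t' z : ℂ →L[ℝ] ℂ) : ℂ →ₗ[ℝ] ℂ) =
      ((fderiv ℝ a ((t' * t⁻¹) • a.symm (t • z)) : ℂ →L[ℝ] ℂ) : ℂ →ₗ[ℝ] ℂ) ∘ₗ
        ((fderiv ℝ a.symm (t • z) : ℂ →L[ℝ] ℂ) : ℂ →ₗ[ℝ] ℂ) := rfl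
  rw [h2, LinearMap.det_comp, ha.2.2, det_symm a ha, one_mul]

theorem phf_id (a : Equiv.Perm ℂ) (r : ℝ) (hr : ∀ z : ℂ, ‖z‖ < r → a z = z) (t t' : ℝ)
    (ht : 0 < t) (ht1 : t ≤ 1) (ht' : 0 < t') (ht1' : t' ≤ 1) (z : ℂ) (hz : ‖z‖ < r) :
    phf a t t' z = z := by
  have hsm : ∀ s : ℝ, 0 < s → s ≤ 1 → ‖s • z‖ < r := by
    intro s h0 h1
    rw [norm_smul, Real.norm_of_nonneg h0.le]
    exact (mul_le_of_le_one_left (norm_nonneg _) h1).trans_lt hz
  have h1 : a.symm (t • z) = t • z := by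
    rw [Equiv.symm_apply_eq, hr _ (hsm t ht ht1)]
  unfold phf
  rw [h1, smul_smul]
  have : t' * t⁻¹ * t = t' := by field_simp
  rw [this, hr _ (hsm t' ht' ht1'), smul_smul, inv_mul_cancel₀ ht'.ne', one_smul]

/-- the rescaled maps -/
noncomputable def at' (a : Equiv.Perm ℂ) (t : ℝ) (z : ℂ) : ℂ := t⁻¹ • a (t • z)

theorem phf_at (a : Equiv.Perm ℂ) (t t' : ℝ) (ht : t ≠ 0) (z : ℂ) :
    phf a t t' (at' a t z) = at' a t' z := by
  unfold phf at'
  rw [smul_smul t t⁻¹, mul_inv_cancel₀ ht, one_smul, Equiv.symm_apply_apply, smul_smul]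
  have : t' * t⁻¹ * t = t' := by field_simp
  rw [this]

theorem ar_lt (R : ℝ) (z : ℂ) (h : ar z < R) : ‖z‖ ≤ Real.sqrt (R / Real.pi) := by
  have hpi := Real.pi_pos
  apply Real.le_sqrt_of_sq_le
  rw [le_div_iff₀ hpi]
  unfold ar at h
  linarith

theorem ar_le (R : ℝ) (z : ℂ) (h : ar z ≤ R) : ‖z‖ ≤ Real.sqrt (R / Real.pi) := by
  have hpi := Real.pi_pos
  apply Real.le_sqrt_of_sq_le
  rw [le_div_iff₀ hpi]
  unfold ar at h
  linarith

theorem chain (a : Equiv.Perm ℂ) (ρ : ℝ) (z : ℂ) (n : ℕ) (T : ℕ → ℝ) (hT : ∀ i, T i ≠ 0)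
    (hb : ∀ i ≤ n, ar (at' a (T i) z) < ρ) : ∀ m k : ℕ, k + m ≤ n →
    Stay ρ ((List.range' k m).map (fun i => ph a (T i) (T (i + 1)) (hT i) (hT (i + 1))))
      (at' a (T k) z) ∧
    compL ((List.range' k m).map (fun i => ph a (T i) (T (i + 1)) (hT i) (hT (i + 1))))
      (at' a (T k) z) = at' a (T (k + m)) z := by
  intro m
  induction m with
  | zero => intro k _; exact ⟨trivial, rfl⟩
  | succ m ih =>
    intro k hk
    have h1 : List.range' k (m + 1) = k :: List.range' (k + 1) m := by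
      rw [List.range'_succ]
    rw [h1, List.map_cons]
    have h2 : (ph a (T k) (T (k + 1)) (hT k) (hT (k + 1))) (at' a (T k) z) =
        at' a (T (k + 1)) z := phf_at a (T k) (T (k + 1)) (hT k) z
    have h3 := ih (k + 1) (by omega)
    refine ⟨⟨hb k (by omega), ?_⟩, ?_⟩
    · rw [h2]; exact h3.1
    · change compL _ ((ph a (T k) (T (k + 1)) (hT k) (hT (k + 1))) (at' a (T k) z)) = _
      rw [h2, h3.2]
      congr 2
      omega

theorem t_steps : S_steps := by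
  intro a ha hId R hR
  obtain ⟨r, hr, hra⟩ := hId
  have hpi := Real.pi_pos
  set R1 : ℝ := Real.sqrt (R / Real.pi) with hR1
  have hR1' : 0 ≤ R1 := Real.sqrt_nonneg _
  obtain ⟨t0, ht0, ht01, ht0r⟩ : ∃ t0 : ℝ, 0 < t0 ∧ t0 < 1 ∧ t0 * R1 < r := by
    refine ⟨min (1 / 2) (r / (2 * (R1 + 1))), ?_, ?_, ?_⟩
    · positivity
    · exact (min_le_left _ _).trans_lt (by norm_num)
    · calc min (1 / 2) (r / (2 * (R1 + 1))) * R1 ≤ r / (2 * (R1 + 1)) * R1 :=
          mul_le_mul_of_nonneg_right (min_le_right _ _) hR1'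
        _ ≤ r / (2 * (R1 + 1)) * (R1 + 1) := by gcongr; linarith
        _ = r / 2 := by field_simp
        _ < r := by linarith
  have ca : Continuous a := ha.1.continuous
  have cas : Continuous a.symm := ha.2.1.continuous
  have cda : Continuous (fderiv ℝ a) := ha.1.continuous_fderiv (by simp)
  have cdas : Continuous (fderiv ℝ a.symm) := ha.2.1.continuous_fderiv (by simp)
  -- the bound
  obtain ⟨ρ, hρ, hρb⟩ : ∃ ρ : ℝ, 0 < ρ ∧ ∀ t ∈ Icc t0 1, ∀ z : ℂ, ‖z‖ ≤ R1 →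
      ar (at' a t z) < ρ := by
    have hK : IsCompact (Icc t0 1 ×ˢ closedBall (0 : ℂ) R1) :=
      isCompact_Icc.prod (isCompact_closedBall _ _)
    have hc : ContinuousOn (fun p : ℝ × ℂ => ar (at' a p.1 p.2))
        (Icc t0 1 ×ˢ closedBall (0 : ℂ) R1) := by
      unfold ar at'
      refine continuousOn_const.mul ((ContinuousOn.norm ?_).pow 2)
      refine ContinuousOn.fun_smul ?_ ?_
      · apply ContinuousOn.inv₀ continuous_fst.continuousOn
        intro p hp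
        exact (ht0.trans_le hp.1.1).ne'
      · exact (ca.comp (f := fun p : ℝ × ℂ => p.1 • p.2) (continuous_fst.smul continuous_snd)).continuousOn
    obtain ⟨B, hB⟩ := hK.exists_bound_of_continuousOn hc
    refine ⟨|B| + 1, by positivity, fun t ht z hz => ?_⟩
    have := hB (t, z) ⟨ht, by rwa [mem_closedBall_zero_iff]⟩
    have h1 := (le_abs_self _).trans this
    have h2 := le_abs_self B
    change ar (at' a t z) ≤ B at h1
    linarith
  refine ⟨r, hr, ρ, hρ, fun δ hδ => ?_⟩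
  -- uniform continuity
  set K : Set (ℝ × ℝ × ℂ) := Icc t0 1 ×ˢ Icc t0 1 ×ˢ
    closedBall (0 : ℂ) (Real.sqrt ((ρ + 4) / Real.pi)) with hK
  have hKc : IsCompact K := isCompact_Icc.prod (isCompact_Icc.prod (isCompact_closedBall _ _))
  have hc0 : ContinuousOn (fun p : ℝ × ℝ × ℂ =>
      (p.2.1 * p.1⁻¹) • a.symm (p.1 • p.2.2)) K := by
    refine ContinuousOn.fun_smul ?_ ?_
    · refine ContinuousOn.mul (by fun_prop) ?_
      apply ContinuousOn.inv₀ continuous_fst.continuousOn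
      intro p hp
      exact (ht0.trans_le hp.1.1).ne'
    · exact (cas.comp (f := fun p : ℝ × ℝ × ℂ => p.1 • p.2.2)
        (continuous_fst.smul (continuous_snd.comp continuous_snd))).continuousOn
  have hc1 : ContinuousOn (fun p : ℝ × ℝ × ℂ => phf a p.1 p.2.1 p.2.2) K := by
    unfold phf
    refine ContinuousOn.fun_smul ?_ ?_
    · apply ContinuousOn.inv₀ (by fun_prop)
      intro p hp
      exact (ht0.trans_le hp.2.1.1).ne'
    · exact ca.comp_continuousOn hc0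
  have hc2 : ContinuousOn (fun p : ℝ × ℝ × ℂ => phd a p.1 p.2.1 p.2.2) K := by
    unfold phd
    refine ContinuousOn.clm_comp ?_ ?_
    · exact cda.comp_continuousOn hc0
    · exact (cdas.comp (f := fun p : ℝ × ℝ × ℂ => p.1 • p.2.2)
        (continuous_fst.smul (continuous_snd.comp continuous_snd))).continuousOn
  have hu1 := hKc.uniformContinuousOn_of_continuous hc1
  have hu2 := hKc.uniformContinuousOn_of_continuous hc2
  rw [Metric.uniformContinuousOn_iff] at hu1 hu2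
  obtain ⟨η1, hη1, hη1'⟩ := hu1 δ hδ
  obtain ⟨η2, hη2, hη2'⟩ := hu2 δ hδ
  have hclose : ∀ t ∈ Icc t0 1, ∀ t' ∈ Icc t0 1, |t' - t| < min η1 η2 →
      ∀ z : ℂ, ar z ≤ ρ + 4 → ‖phf a t t' z - z‖ ≤ δ ∧
        ‖phd a t t' z - ContinuousLinearMap.id ℝ ℂ‖ ≤ δ := by
    intro t ht t' ht' htt z hz
    have hz' : z ∈ closedBall (0 : ℂ) (Real.sqrt ((ρ + 4) / Real.pi)) := by
      rw [mem_closedBall_zero_iff]; exact ar_le _ _ hz
    have m1 : (t, t', z) ∈ K := ⟨ht, ht', hz'⟩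
    have m2 : (t, t, z) ∈ K := ⟨ht, ht, hz'⟩
    have ht0' : t ≠ 0 := (ht0.trans_le ht.1).ne'
    have hd : dist (t, t', z) (t, t, z) = |t' - t| := by
      rw [Prod.dist_eq, Prod.dist_eq, dist_self, dist_self, Real.dist_eq]
      simp
    have e1 : phf a t t z = z := by
      unfold phf
      rw [mul_inv_cancel₀ ht0', one_smul, Equiv.apply_symm_apply, smul_smul,
        inv_mul_cancel₀ ht0', one_smul]
    have e2 : phd a t t z = ContinuousLinearMap.id ℝ ℂ := by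
      unfold phd
      rw [mul_inv_cancel₀ ht0', one_smul, symm_fderiv a ha]
    constructor
    · have := hη1' _ m1 _ m2 (by rw [hd]; exact htt.trans_le (min_le_left _ _))
      simp only [e1, dist_eq_norm] at this
      exact this.le
    · have := hη2' _ m1 _ m2 (by rw [hd]; exact htt.trans_le (min_le_right _ _))
      simp only [e2, dist_eq_norm] at this
      exact this.le
  -- the mesh
  have hη : 0 < min η1 η2 := lt_min hη1 hη2
  obtain ⟨N, hN⟩ := exists_nat_gt (1 / min η1 η2)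
  have hN0 : (0 : ℝ) < N := lt_trans (by positivity) hN
  have hNn : N ≠ 0 := by
    rintro rfl
    simp at hN0
  have hNη : 1 / (N : ℝ) < min η1 η2 := by
    rw [div_lt_comm₀ hN0 hη]; exact hN
  let T : ℕ → ℝ := fun i => t0 + (1 - t0) * i / N
  have hTge : ∀ i, t0 ≤ T i := by
    intro i
    have : 0 ≤ (1 - t0) * i / N := by
      apply div_nonneg _ hN0.le
      exact mul_nonneg (by linarith) (Nat.cast_nonneg _)
    change t0 ≤ t0 + (1 - t0) * i / N
    linarith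
  have hTle : ∀ i ≤ N, T i ≤ 1 := by
    intro i hi
    have hi' : (i : ℝ) ≤ N := by exact_mod_cast hi
    have : (1 - t0) * i / N ≤ 1 - t0 := by
      rw [div_le_iff₀ hN0]
      exact mul_le_mul_of_nonneg_left hi' (by linarith)
    change t0 + (1 - t0) * i / N ≤ 1
    linarith
  have hT0 : ∀ i, T i ≠ 0 := fun i => (ht0.trans_le (hTge i)).ne'
  have hTz : T 0 = t0 := by simp [T]
  have hTN : T N = 1 := by
    change t0 + (1 - t0) * N / N = 1
    field_simp
    ring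
  have hTd : ∀ i, |T (i + 1) - T i| < min η1 η2 := by
    intro i
    have : T (i + 1) - T i = (1 - t0) / N := by
      change (t0 + (1 - t0) * ((i + 1 : ℕ) : ℝ) / N) - (t0 + (1 - t0) * i / N) = _
      push_cast
      field_simp
      ring
    rw [this, abs_of_nonneg (div_nonneg (by linarith) hN0.le)]
    refine lt_of_le_of_lt ?_ hNη
    gcongr
    linarith
  refine ⟨(List.range' 0 N).map (fun i => ph a (T i) (T (i + 1)) (hT0 i) (hT0 (i + 1))),
    ?_, ?_, ?_⟩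
  · intro h
    rw [List.map_eq_nil_iff] at h
    have := congrArg List.length h
    rw [List.length_range'] at this
    exact hNn this
  · intro φ hφ
    rw [List.mem_map] at hφ
    obtain ⟨i, hi, rfl⟩ := hφ
    rw [List.mem_range'_1] at hi
    have i1 : i ≤ N := by omega
    have i2 : i + 1 ≤ N := by omega
    refine ⟨ph_AP a ha _ _ _ _, ?_, ?_⟩
    · intro z hz
      exact phf_id a r hra (T i) (T (i + 1)) (ht0.trans_le (hTge i)) (hTle i i1)
        (ht0.trans_le (hTge _)) (hTle _ i2) z hz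
    · intro z hz
      have h1 := hclose (T i) ⟨hTge i, hTle i i1⟩ (T (i + 1)) ⟨hTge _, hTle _ i2⟩ (hTd i) z hz
      refine ⟨h1.1, ?_⟩
      have h2 : fderiv ℝ (ph a (T i) (T (i + 1)) (hT0 i) (hT0 (i + 1))) z =
          phd a (T i) (T (i + 1)) z := (phf_hasFDerivAt a ha _ _ (hT0 i) (hT0 (i + 1)) z).fderiv
      rw [h2]
      exact h1.2
  · intro z hz
    have hz' := ar_lt R z hz
    have h1 := chain a ρ z N T hT0 (fun i hi => hρb (T i) ⟨hTge i, hTle i hi⟩ z hz') N 0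
      (by omega)
    have h2 : at' a (T 0) z = z := by
      rw [hTz]
      unfold at'
      rw [hra, smul_smul, inv_mul_cancel₀ ht0.ne', one_smul]
      rw [norm_smul, Real.norm_of_nonneg ht0.le]
      exact (mul_le_mul_of_nonneg_left hz' ht0.le).trans_lt ht0r
    have h3 : at' a (T (0 + N)) z = a z := by
      rw [zero_add, hTN]
      unfold at'
      simp
    rw [h2, h3] at h1
    exact h1

end Pool.Agent.W991.DP
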